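import Mathlib

set_option autoImplicit false

open MeasureTheory Filter Topology
open scoped CompactlySupported

namespace Pool.Agent.Lib.MP_831e37_an

/-- Euclidean space R^d. -/
abbrev Euc (d : ℕ) : Type := EuclideanSpace ℝ (Fin d)

/-- A complex Radon measure on R^d, given by its polar decomposition mu = phase * |mu| :
`tv` is the total variation measure |mu| (a positive locally finite Borel measure, i.e. a positive
Radon measure on R^d) and `phase` is a Borel function of modulus one. -/
structure CRadon (d : ℕ) where
  tv : Measure (Euc d)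
  locallyFinite : IsLocallyFiniteMeasure tv
  phase : Euc d → ℂ
  measurable_phase : Measurable phase
  norm_phase : ∀ x, ‖phase x‖ = 1

/-- The value mu(f) = the integral of f against mu (used for f in C_c and for f in L1(|mu|)). -/
noncomputable def CRadon.eval {d : ℕ} (μ : CRadon d) (f : Euc d → ℂ) : ℂ :=
  ∫ x, f x * μ.phase x ∂μ.tv

/-- The inverse Fourier integral: check g x = integral of g(t) exp(2 pi i x.t) dt. -/
noncomputable def check {d : ℕ} (g : Euc d → ℂ) (x : Euc d) : ℂ :=
  ∫ t, g t * Complex.exp (2 * Real.pi * Complex.I * (inner ℝ x t : ℝ))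

/-- K_2(R^d): the complex span of the convolutions f * h with f, h in C_c(R^d). -/
noncomputable def K2 (d : ℕ) : Submodule ℂ (Euc d → ℂ) :=
  Submodule.span ℂ {g | ∃ f h : C_c(Euc d, ℂ), g = fun x => ∫ t, f t * h (x - t)}

/-- `muhat` is the Fourier transform of `mu`: for every g in K_2, check g is in L1(|muhat|)
and mu(g) = muhat(check g). -/
def IsFourierTransform {d : ℕ} (μ μhat : CRadon d) : Prop :=
  ∀ g ∈ K2 d, Integrable (check g) μhat.tv ∧ μ.eval g = μhat.eval (check g)

end Pool.Agent.Lib.MP_831e37_an
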