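import Mathlib

set_option autoImplicit false

open MeasureTheory FourierTransform SchwartzMap Filter Topology
open scoped Convolution ContDiff

namespace Pool.Agent.Lib.MP_831e37_an

variable {E : Type*} [NormedAddCommGroup E] [InnerProductSpace ℝ E] [FiniteDimensional ℝ E]
  [MeasurableSpace E] [BorelSpace E]

/-- The Fourier integral of a function in L1 and L2 lies in L2. -/
theorem memLp_two_fourier {f : E → ℂ} (h1 : Integrable f) (h2 : MemLp f 2 volume) :
    MemLp (𝓕 f) 2 volume := by
  set F : Lp ℂ 2 (volume : Measure E) := h2.toLp f with hF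
  have hc : Continuous (𝓕 f) := by
    exact VectorFourier.fourierIntegral_continuous Real.continuous_fourierChar
      (by exact continuous_inner) h1
  have key : ∀ᵐ x ∂(volume : Measure E), (𝓕 F : Lp ℂ 2 (volume : Measure E)) x = 𝓕 f x := by
    apply ae_eq_of_integral_contDiff_smul_eq
    · exact (Lp.memLp _).locallyIntegrable (by norm_num)
    · exact hc.locallyIntegrable
    intro g hg hgs
    have hg₁ : HasCompactSupport (Complex.ofRealCLM ∘ g) := hgs.comp_left rfl
    have hg₂ : ContDiff ℝ ∞ (Complex.ofRealCLM ∘ g) := by fun_prop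
    set φ : 𝓢(E, ℂ) := hg₁.toSchwartzMap hg₂ with hφ
    have hφx : ∀ x, φ x = (g x : ℂ) := fun x => rfl
    have e1 := congrArg (fun T : 𝓢'(E, ℂ) => T φ) (Lp.fourier_toTemperedDistribution_eq F)
    simp only [TemperedDistribution.fourier_apply, Lp.toTemperedDistribution_apply] at e1
    calc ∫ x, g x • (𝓕 F : Lp ℂ 2 (volume : Measure E)) x
        = ∫ x, φ x • (𝓕 F : Lp ℂ 2 (volume : Measure E)) x := by
          simp [hφx]
      _ = ∫ x, (𝓕 φ) x • F x := e1.symm
      _ = ∫ x, (𝓕 (φ : E → ℂ)) x • f x := by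
          apply integral_congr_ae
          filter_upwards [h2.coeFn_toLp] with x hx
          rw [hF, hx, SchwartzMap.fourier_coe]
      _ = ∫ x, φ x • 𝓕 f x := by
          simpa using! (VectorFourier.integral_fourierIntegral_smul_eq_flip (L := innerₗ E)
            Real.continuous_fourierChar continuous_inner φ.integrable h1)
      _ = ∫ x, g x • 𝓕 f x := by simp [hφx]
  exact (memLp_congr_ae key).1 (Lp.memLp _)

/-- continuous, integrable, with integrable Fourier integral -/
def Good (g : E → ℂ) : Prop := Continuous g ∧ Integrable g ∧ Integrable (𝓕 g)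

theorem good_conv {f h : E → ℂ} (hf : Continuous f) (hfs : HasCompactSupport f)
    (hh : Continuous h) (hhs : HasCompactSupport h) :
    Good (fun x => ∫ t, f t * h (x - t)) := by
  have hfi : Integrable f := hf.integrable_of_hasCompactSupport hfs
  have hhi : Integrable h := hh.integrable_of_hasCompactSupport hhs
  have e : (fun x => ∫ t, f t * h (x - t)) = f ⋆[ContinuousLinearMap.mul ℂ ℂ] h := by
    ext x; simp [convolution_def]
  rw [e]
  refine ⟨?_, ?_, ?_⟩
  · exact hhs.continuous_convolution_right _ hf.locallyIntegrable hh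
  · exact hfi.integrable_convolution _ hhi
  · have e2 : 𝓕 (f ⋆[ContinuousLinearMap.mul ℂ ℂ] h) = (𝓕 f) * (𝓕 h) := by
      ext ξ; exact Real.fourier_mul_convolution_eq hfi hhi ξ
    rw [e2]
    exact (memLp_two_fourier hfi (hf.memLp_of_hasCompactSupport hfs)).integrable_mul
      (memLp_two_fourier hhi (hh.memLp_of_hasCompactSupport hhs))

theorem good_zero : Good (0 : E → ℂ) := by
  refine ⟨continuous_zero, integrable_zero _ _ _, ?_⟩
  have : 𝓕 (0 : E → ℂ) = 0 := by
    ext ξ; simp [Real.fourier_eq]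
  rw [this]; exact integrable_zero _ _ _

theorem good_add {f g : E → ℂ} (hf : Good f) (hg : Good g) : Good (f + g) := by
  refine ⟨hf.1.add hg.1, hf.2.1.add hg.2.1, ?_⟩
  have : 𝓕 (f + g) = 𝓕 f + 𝓕 g :=
    VectorFourier.fourierIntegral_add Real.continuous_fourierChar (by exact continuous_inner)
      hf.2.1 hg.2.1
  rw [this]; exact hf.2.2.add hg.2.2

theorem good_smul (c : ℂ) {f : E → ℂ} (hf : Good f) : Good (c • f) := by
  refine ⟨hf.1.const_smul c, hf.2.1.smul c, ?_⟩
  have : 𝓕 (c • f) = c • 𝓕 f := VectorFourier.fourierIntegral_const_smul _ _ _ _ _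
  rw [this]; exact hf.2.2.smul c

theorem Good.integrable_inv {g : E → ℂ} (hg : Good g) : Integrable (𝓕⁻ g) := by
  have : 𝓕⁻ g = fun w => 𝓕 g (-w) := by
    ext w; exact Real.fourierInv_eq_fourier_neg g w
  rw [this]
  exact hg.2.2.comp_neg

theorem Good.inversion {g : E → ℂ} (hg : Good g) (x : E) :
    g x = ∫ t, 𝓕⁻ g t * Complex.exp (-(2 * Real.pi * Complex.I * (inner ℝ x t : ℝ))) := by
  have := congrFun (hg.1.fourier_fourierInv_eq hg.2.1 hg.2.2) x
  rw [← this, Real.fourier_eq']
  congr 1; ext t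
  rw [smul_eq_mul, mul_comm, real_inner_comm]
  congr 2
  push_cast; ring

/-- polynomials divisible by a high power of X that are close to 1 near the point 1 -/
theorem exists_poly (m : ℕ) {δ : ℝ} (hδ : 0 < δ) :
    ∃ P : Polynomial ℂ, (∀ k < m, P.coeff k = 0) ∧
      ∀ w : ℂ, ‖1 - w‖ ≤ 1 / 2 → ‖P.eval w - 1‖ ≤ δ := by
  have hc : ContinuousAt (fun z : ℂ => (1 - z) ^ m) 0 := by fun_prop
  rw [Metric.continuousAt_iff] at hc
  obtain ⟨η, hη, hb⟩ := hc δ hδ
  obtain ⟨N, hN⟩ := exists_pow_lt_of_lt_one hη (show (1 / 2 : ℝ) < 1 by norm_num)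
  refine ⟨(1 - (1 - Polynomial.X) ^ N) ^ m, ?_, ?_⟩
  · rw [← Polynomial.X_pow_dvd_iff]
    apply pow_dvd_pow_of_dvd
    rw [Polynomial.X_dvd_iff]
    simp [Polynomial.coeff_zero_eq_eval_zero]
  · intro w hw
    have h1 : dist ((1 - w) ^ N) 0 < η := by
      rw [dist_zero_right, norm_pow]
      exact lt_of_le_of_lt (pow_le_pow_left₀ (norm_nonneg _) hw N) hN
    have h2 := hb h1
    simp only [sub_zero, one_pow, dist_eq_norm] at h2
    simpa using h2.le

end Pool.Agent.Lib.MP_831e37_an
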