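import Mathlib
import Pool.Agent.Lib.MP_831e37_an.Defs
import Pool.Agent.Lib.MP_831e37_an.Fourier

set_option autoImplicit false

open MeasureTheory FourierTransform Filter Topology
open scoped CompactlySupported NNReal ENNReal

namespace Pool.Agent.Lib.MP_831e37_an

variable {d : ℕ}

/-- unit-modulus phase of a complex number -/
noncomputable def ph (z : ℂ) : ℂ := if z = 0 then 1 else z / (‖z‖ : ℂ)

theorem norm_ph (z : ℂ) : ‖ph z‖ = 1 := by
  unfold ph
  split_ifs with h
  · simp
  · have : ‖z‖ ≠ 0 := norm_ne_zero_iff.2 h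
    simp [this]

theorem norm_mul_ph (z : ℂ) : (‖z‖ : ℂ) * ph z = z := by
  unfold ph
  split_ifs with h
  · simp [h]
  · have : (‖z‖ : ℂ) ≠ 0 := by exact_mod_cast norm_ne_zero_iff.2 h
    field_simp

theorem measurable_ph : Measurable ph := by
  unfold ph
  refine Measurable.ite (measurableSet_singleton 0) measurable_const ?_
  exact measurable_id.div (Complex.measurable_ofReal.comp measurable_norm)

theorem withDensity_le {ρ : Measure (Euc d)} {F : Euc d → ℂ} {C : ℝ≥0} (hC : ∀ x, ‖F x‖₊ ≤ C) :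
    ρ.withDensity (fun x => (‖F x‖₊ : ℝ≥0∞)) ≤ (C : ℝ≥0∞) • ρ := by
  rw [← withDensity_const]
  apply withDensity_mono
  filter_upwards with x
  exact_mod_cast hC x

/-- the measure F * rho for a bounded Borel density F -/
noncomputable def ofDensity (ρ : Measure (Euc d)) [IsLocallyFiniteMeasure ρ] (F : Euc d → ℂ)
    (hF : Measurable F) (C : ℝ≥0) (hC : ∀ x, ‖F x‖₊ ≤ C) : CRadon d where
  tv := ρ.withDensity (fun x => (‖F x‖₊ : ℝ≥0∞))
  locallyFinite := by
    have : IsLocallyFiniteMeasure ((C : ℝ≥0∞) • ρ) := by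
      have h : IsLocallyFiniteMeasure (C • ρ) := inferInstance
      exact h
    exact Measure.isLocallyFiniteMeasure_of_le (withDensity_le hC)
  phase := fun x => ph (F x)
  measurable_phase := measurable_ph.comp hF
  norm_phase := fun x => norm_ph _

theorem ofDensity_eval (ρ : Measure (Euc d)) [IsLocallyFiniteMeasure ρ] (F : Euc d → ℂ)
    (hF : Measurable F) (C : ℝ≥0) (hC : ∀ x, ‖F x‖₊ ≤ C) (f : Euc d → ℂ) :
    (ofDensity ρ F hF C hC).eval f = ∫ x, f x * F x ∂ρ := by
  unfold CRadon.eval ofDensity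
  simp only
  rw [integral_withDensity_eq_integral_smul hF.nnnorm]
  congr 1; ext x
  rw [NNReal.smul_def, Complex.real_smul, coe_nnnorm]
  calc (‖F x‖ : ℂ) * (f x * ph (F x)) = f x * ((‖F x‖ : ℂ) * ph (F x)) := by ring
    _ = f x * F x := by rw [norm_mul_ph]

theorem ofDensity_integrable (ρ : Measure (Euc d)) [IsLocallyFiniteMeasure ρ] (F : Euc d → ℂ)
    (hF : Measurable F) (C : ℝ≥0) (hC : ∀ x, ‖F x‖₊ ≤ C) {f : Euc d → ℂ} (hf : Integrable f ρ) :
    Integrable f (ofDensity ρ F hF C hC).tv :=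
  (hf.smul_measure ENNReal.coe_ne_top).mono_measure (withDensity_le hC)

theorem check_eq (g : Euc d → ℂ) : check g = 𝓕⁻ g := by
  ext x
  rw [check, Real.fourierInv_eq']
  congr 1; ext t
  rw [smul_eq_mul, mul_comm, real_inner_comm]
  congr 2
  push_cast; ring

theorem good_of_mem_K2 {g : Euc d → ℂ} (hg : g ∈ K2 d) : Good g := by
  unfold K2 at hg
  induction hg using Submodule.span_induction with
  | mem x hx =>
    obtain ⟨f, h, rfl⟩ := hx
    exact good_conv f.continuous f.hasCompactSupport h.continuous h.hasCompactSupport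
  | zero => exact good_zero
  | add x y _ _ hx hy => exact good_add hx hy
  | smul a x _ hx => exact good_smul a hx

/-- finite combinations of point masses and their Fourier transforms -/
theorem exists_atomic (s : Finset ℕ) (x : ℕ → Euc d) (hx : Function.Injective x) (c : ℕ → ℂ) :
    ∃ ν νhat : CRadon d, IsFiniteMeasure ν.tv ∧ IsFourierTransform ν νhat ∧
      (∀ f : Euc d → ℂ, ν.eval f = ∑ k ∈ s, c k * f (x k)) ∧
      (∀ f : Euc d → ℂ, νhat.eval f = ∫ t, f t *
        ∑ k ∈ s, c k * Complex.exp (-(2 * Real.pi * Complex.I * (inner ℝ (x k) t : ℝ)))) := by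
  classical
  set ρ : Measure (Euc d) := ∑ k ∈ s, Measure.dirac (x k) with hρ
  have : IsFiniteMeasure ρ := by rw [hρ]; infer_instance
  set D : Euc d → ℂ := fun y => ∑ k ∈ s, if y = x k then c k else 0 with hD
  have hDm : Measurable D := by
    refine Finset.measurable_sum _ (fun k _ => ?_)
    exact Measurable.ite (measurableSet_singleton (x k)) measurable_const measurable_const
  set C : ℝ≥0 := ∑ k ∈ s, ‖c k‖₊ with hCdef
  have hDC : ∀ y, ‖D y‖₊ ≤ C := by
    intro y
    refine (nnnorm_sum_le _ _).trans (Finset.sum_le_sum fun k _ => ?_)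
    split_ifs <;> simp
  set F : Euc d → ℂ := fun t =>
    ∑ k ∈ s, c k * Complex.exp (-(2 * Real.pi * Complex.I * (inner ℝ (x k) t : ℝ))) with hF
  have hFc : Continuous F := by rw [hF]; fun_prop
  have hexp : ∀ k t, ‖Complex.exp (-(2 * Real.pi * Complex.I * (inner ℝ (x k) t : ℝ)))‖ = 1 := by
    intro k t
    rw [Complex.norm_exp]
    simp
  have hFC : ∀ y, ‖F y‖₊ ≤ C := by
    intro y
    refine (nnnorm_sum_le _ _).trans (Finset.sum_le_sum fun k _ => ?_)
    rw [← NNReal.coe_le_coe]
    simp only [coe_nnnorm, norm_mul, hexp, mul_one, le_refl]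
  have hev : ∀ f : Euc d → ℂ, (ofDensity ρ D hDm C hDC).eval f = ∑ k ∈ s, c k * f (x k) := by
    intro f
    rw [ofDensity_eval, hρ, integral_finsetSum_measure]
    · refine Finset.sum_congr rfl fun k hk => ?_
      rw [integral_dirac, mul_comm]
      congr 1
      simp only [hD, hx.eq_iff]
      rw [Finset.sum_ite_eq]
      simp [hk]
    · intro k _
      exact integrable_dirac enorm_lt_top
  refine ⟨ofDensity ρ D hDm C hDC, ofDensity volume F hFc.measurable C hFC, ?_, ?_, hev, ?_⟩
  · have : IsFiniteMeasure ((C : ℝ≥0∞) • ρ) := by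
      have h : IsFiniteMeasure (C • ρ) := inferInstance
      exact h
    exact isFiniteMeasure_of_le _ (withDensity_le hDC)
  · intro g hg
    have hG := good_of_mem_K2 hg
    rw [check_eq]
    refine ⟨ofDensity_integrable _ _ _ _ _ hG.integrable_inv, ?_⟩
    rw [hev, ofDensity_eval]
    simp only [hF, Finset.mul_sum]
    rw [integral_finsetSum]
    · refine Finset.sum_congr rfl fun k _ => ?_
      rw [hG.inversion (x k), ← integral_const_mul]
      congr 1; ext t; ring
    · intro k _
      refine hG.integrable_inv.mul_bdd (c := ‖c k‖) ?_ ?_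
      · exact Continuous.aestronglyMeasurable (by fun_prop)
      · filter_upwards with t
        rw [norm_mul, hexp, mul_one]
  · intro f
    rw [ofDensity_eval]

/-- Lebesgue measure as a complex Radon measure -/
noncomputable def lebesgue (d : ℕ) : CRadon d where
  tv := volume
  locallyFinite := inferInstance
  phase := fun _ => 1
  measurable_phase := measurable_const
  norm_phase := fun _ => by simp

theorem lebesgue_eval (f : Euc d → ℂ) : (lebesgue d).eval f = ∫ x, f x := by
  simp [CRadon.eval, lebesgue]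

theorem lebesgue_ne_zero : ∃ f : C_c(Euc d, ℂ), (lebesgue d).eval f ≠ 0 := by
  let b : ContDiffBump (0 : Euc d) := ⟨1, 2, by norm_num, by norm_num⟩
  refine ⟨⟨⟨fun x => (b x : ℂ), Complex.continuous_ofReal.comp b.continuous⟩,
    b.hasCompactSupport.comp_left (g := fun r : ℝ => (r : ℂ)) (by simp)⟩, ?_⟩
  rw [lebesgue_eval]
  have h := b.integral_pos (μ := volume)
  have : (∫ x, (b x : ℂ)) = ((∫ x, b x : ℝ) : ℂ) := integral_ofReal
  simp only [CompactlySupportedContinuousMap.coe_mk, ContinuousMap.coe_mk]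
  rw [this]
  exact_mod_cast h.ne'

/-- one step of the construction -/
theorem exists_step (hd : 1 ≤ d) (n : ℕ) :
    ∃ ν νhat : CRadon d, ∃ F : Euc d → ℂ, Continuous F ∧
      IsFiniteMeasure ν.tv ∧ IsFourierTransform ν νhat ∧
      (∀ f : Euc d → ℂ, (∀ y, (n : ℝ) < ‖y‖ → f y = 0) → ν.eval f = 0) ∧
      (∀ f : Euc d → ℂ, νhat.eval f = ∫ t, f t * F t) ∧
      (∀ t, ‖t‖ ≤ n → ‖F t - 1‖ ≤ 1 / ((n : ℝ) + 1)) := by
  set e : Euc d := EuclideanSpace.single (⟨0, hd⟩ : Fin d) (1 : ℝ) with he
  have hen : ‖e‖ = 1 := by simp [he]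
  have hn1 : (0 : ℝ) < (n : ℝ) + 1 := by positivity
  set ε : ℝ := 1 / (16 * ((n : ℝ) + 1)) with hε
  have hεpos : 0 < ε := by positivity
  obtain ⟨P, hP0, hP1⟩ := exists_poly (16 * (n + 1) * (n + 1)) (δ := 1 / ((n : ℝ) + 1))
    (by positivity)
  set x : ℕ → Euc d := fun k => ((k : ℝ) * ε) • e with hx
  have hxn : ∀ k, ‖x k‖ = (k : ℝ) * ε := by
    intro k
    simp only [hx, norm_smul, hen, mul_one, Real.norm_eq_abs]
    exact abs_of_nonneg (by positivity)
  have hinj : Function.Injective x := by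
    intro a b hab
    have h1 : (a : ℝ) * ε = (b : ℝ) * ε := by rw [← hxn, ← hxn, hab]
    exact_mod_cast mul_right_cancel₀ hεpos.ne' h1
  obtain ⟨ν, νhat, h1, h2, h3, h4⟩ := exists_atomic P.support x hinj P.coeff
  refine ⟨ν, νhat, _, ?_, h1, h2, ?_, h4, ?_⟩
  · fun_prop
  · intro f hf
    rw [h3]
    refine Finset.sum_eq_zero fun k hk => ?_
    have hk' : 16 * (n + 1) * (n + 1) ≤ k := by
      by_contra hlt
      exact (Polynomial.mem_support_iff.1 hk) (hP0 k (not_le.1 hlt))
    rw [hf (x k), mul_zero]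
    rw [hxn]
    have hk'' : (16 * ((n : ℝ) + 1) * ((n : ℝ) + 1)) ≤ (k : ℝ) := by exact_mod_cast hk'
    calc (n : ℝ) < (n : ℝ) + 1 := by linarith
      _ = (16 * ((n : ℝ) + 1) * ((n : ℝ) + 1)) * ε := by rw [hε]; field_simp
      _ ≤ (k : ℝ) * ε := by gcongr
  · intro t ht
    set θ : ℝ := -(2 * Real.pi * ε * (inner ℝ e t : ℝ)) with hθ
    set w : ℂ := Complex.exp (Complex.I * θ) with hw
    have hsum : ∑ k ∈ P.support, P.coeff k *
        Complex.exp (-(2 * Real.pi * Complex.I * (inner ℝ (x k) t : ℝ))) = P.eval w := by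
      rw [Polynomial.eval_eq_sum, Polynomial.sum_def]
      refine Finset.sum_congr rfl fun k _ => ?_
      congr 1
      rw [hw, ← Complex.exp_nat_mul]
      congr 1
      simp only [hx, hθ, real_inner_smul_left]
      push_cast; ring
    rw [hsum]
    apply hP1
    rw [norm_sub_rev]
    refine (Real.norm_exp_I_mul_ofReal_sub_one_le).trans ?_
    have hin : |(inner ℝ e t : ℝ)| ≤ n := by
      refine (abs_real_inner_le_norm e t).trans ?_
      rw [hen, one_mul]; exact ht
    rw [hθ, Real.norm_eq_abs, abs_neg, abs_mul, abs_of_pos (by positivity : 0 < 2 * Real.pi * ε)]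
    have hpi : Real.pi ≤ 4 := Real.pi_le_four
    calc 2 * Real.pi * ε * |(inner ℝ e t : ℝ)| ≤ 2 * 4 * ε * ((n : ℝ) + 1) := by
          gcongr; linarith
      _ = 1 / 2 := by rw [hε]; field_simp; norm_num

theorem exists_radius (f : C_c(Euc d, ℂ)) : ∃ R : ℕ, ∀ y, (R : ℝ) < ‖y‖ → f y = 0 := by
  obtain ⟨r, hr⟩ := f.hasCompactSupport.isCompact.isBounded.subset_closedBall (0 : Euc d)
  obtain ⟨R, hR⟩ := exists_nat_ge r
  refine ⟨R, fun y hy => ?_⟩
  by_contra h
  have : y ∈ tsupport f := subset_tsupport _ h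
  have := hr this
  rw [mem_closedBall_zero_iff] at this
  linarith

theorem main (hd : 1 ≤ d) :
    ∃ (ν νhat : ℕ → CRadon d) (μ : CRadon d),
      (∀ n, IsFiniteMeasure (ν n).tv) ∧
      (∀ n, IsFourierTransform (ν n) (νhat n)) ∧
      (∀ f : C_c(Euc d, ℂ), Tendsto (fun n => (ν n).eval f) atTop (𝓝 0)) ∧
      (∀ f : C_c(Euc d, ℂ), Tendsto (fun n => (νhat n).eval f) atTop (𝓝 (μ.eval f))) ∧
      (∃ f : C_c(Euc d, ℂ), μ.eval f ≠ 0) := by
  choose ν νhat F hFc h1 h2 h3 h4 h5 using exists_step hd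
  refine ⟨ν, νhat, lebesgue d, h1, h2, ?_, ?_, lebesgue_ne_zero⟩
  · intro f
    obtain ⟨R, hR⟩ := exists_radius f
    apply tendsto_const_nhds.congr'
    filter_upwards [eventually_ge_atTop R] with n hn
    refine (h3 n f fun y hy => hR y ?_).symm
    have : (R : ℝ) ≤ n := by exact_mod_cast hn
    linarith
  · intro f
    obtain ⟨R, hR⟩ := exists_radius f
    rw [lebesgue_eval, tendsto_iff_norm_sub_tendsto_zero]
    have hfi : Integrable (f : Euc d → ℂ) :=
      f.continuous.integrable_of_hasCompactSupport f.hasCompactSupport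
    have hlim : Tendsto (fun n : ℕ => (∫ t, ‖f t‖) * (1 / ((n : ℝ) + 1))) atTop (𝓝 0) := by
      have := (tendsto_one_div_add_atTop_nhds_zero_nat (𝕜 := ℝ)).const_mul (∫ t, ‖f t‖)
      simpa using this
    refine squeeze_zero' (Eventually.of_forall fun n => norm_nonneg _) ?_ hlim
    filter_upwards [eventually_ge_atTop R] with n hn
    have hfF : Integrable (fun t => f t * F n t) :=
      (f.continuous.mul (hFc n)).integrable_of_hasCompactSupport f.hasCompactSupport.mul_right
    rw [h4, ← integral_sub hfF hfi, ← integral_mul_const]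
    refine norm_integral_le_of_norm_le (hfi.norm.mul_const _) ?_
    filter_upwards with t
    by_cases ht : (R : ℝ) < ‖t‖
    · simp [hR t ht]
    · have hRn : (R : ℝ) ≤ n := by exact_mod_cast hn
      have := h5 n t (by linarith [not_lt.1 ht])
      calc ‖f t * F n t - f t‖ = ‖f t‖ * ‖F n t - 1‖ := by
            rw [← norm_mul]; congr 1; ring
        _ ≤ ‖f t‖ * (1 / ((n : ℝ) + 1)) := by gcongr

end Pool.Agent.Lib.MP_831e37_an
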